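import Mathlib

/-!
# Inverting an even integer at the bottom level of the Burnside Green functor of `C₂`

Mackey functors, commutative Green functors and modules over them are taken for the group `C₂` of
order two, where they are given by their Lewis diagrams: the values at `C₂/C₂` (called `T`, top)
and at `C₂/e` (called `B`, bottom), the restriction `res : T → B`, the transfer `tr : B → T` and
the action `w : B → B` of the generator of `C₂`. Let `A` be the Burnside Green functor of `C₂`,
so that `A(C₂/e) = ℤ`. For every even integer `b` (for instance `b = 2`) the localization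
`A[b⁻¹]`, `b ∈ A(C₂/e)`, is not a flat `A`-module.
-/

set_option autoImplicit false

namespace Pool.Agent.Results.MP_196a0c_al.EvenInversion

open Function

/-- A commutative Green functor for `C₂`. -/
structure Green where
  /-- the value at `C₂/C₂` -/
  T : Type
  /-- the value at `C₂/e` -/
  B : Type
  [rT : CommRing T]
  [rB : CommRing B]
  /-- the action of the generator of `C₂` on the value at `C₂/e` -/
  w : B →+* B
  /-- restriction -/
  res : T →+* B
  /-- transfer -/
  tr : B →+ T
  w_w : ∀ x, w (w x) = x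
  w_res : ∀ x, w (res x) = res x
  tr_w : ∀ x, tr (w x) = tr x
  res_tr : ∀ x, res (tr x) = x + w x
  frob : ∀ a x, tr (a * res x) = tr a * x

attribute [instance] Green.rT Green.rB

/-- A map of commutative Green functors. -/
@[ext]
structure Green.Hom (R S : Green) where
  /-- the map at `C₂/C₂` -/
  fT : R.T →+* S.T
  /-- the map at `C₂/e` -/
  fB : R.B →+* S.B
  w : ∀ x, fB (R.w x) = S.w (fB x)
  res : ∀ x, fB (R.res x) = S.res (fT x)
  tr : ∀ x, fT (R.tr x) = S.tr (fB x)

/-- A module over the commutative Green functor `R`. -/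
structure RMod (R : Green) where
  /-- the value at `C₂/C₂` -/
  T : Type
  /-- the value at `C₂/e` -/
  B : Type
  [aT : AddCommGroup T]
  [aB : AddCommGroup B]
  [mT : Module R.T T]
  [mB : Module R.B B]
  /-- the action of the generator of `C₂` on the value at `C₂/e` -/
  w : B →+ B
  /-- restriction -/
  res : T →+ B
  /-- transfer -/
  tr : B →+ T
  w_w : ∀ x, w (w x) = x
  w_res : ∀ x, w (res x) = res x
  tr_w : ∀ x, tr (w x) = tr x
  res_tr : ∀ x, res (tr x) = x + w x
  w_smul : ∀ (a : R.B) (x : B), w (a • x) = R.w a • w x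
  res_smul : ∀ (r : R.T) (x : T), res (r • x) = R.res r • res x
  tr_smul_res : ∀ (a : R.B) (x : T), tr (a • res x) = R.tr a • x
  tr_res_smul : ∀ (r : R.T) (x : B), tr (R.res r • x) = r • tr x

attribute [instance] RMod.aT RMod.aB RMod.mT RMod.mB

/-- A map of `R`-modules. -/
@[ext]
structure RMod.Hom {R : Green} (M N : RMod R) where
  /-- the map at `C₂/C₂` -/
  fT : M.T →ₗ[R.T] N.T
  /-- the map at `C₂/e` -/
  fB : M.B →ₗ[R.B] N.B
  w : ∀ x, fB (M.w x) = N.w (fB x)
  res : ∀ x, fB (M.res x) = N.res (fT x)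
  tr : ∀ x, fT (M.tr x) = N.tr (fB x)

/-- The map at `C₂/C₂`. -/
def RMod.Hom.top {R : Green} {M N : RMod R} (h : M.Hom N) (x : M.T) : N.T := h.fT x

/-- The map at `C₂/e`. -/
def RMod.Hom.bot {R : Green} {M N : RMod R} (h : M.Hom N) (x : M.B) : N.B := h.fB x

/-- Bilinear maps at the two levels. -/
structure PrePairing {R : Green} (M N P : RMod R) where
  /-- the pairing at `C₂/C₂` -/
  LT : M.T →ₗ[R.T] N.T →ₗ[R.T] P.T
  /-- the pairing at `C₂/e` -/
  LB : M.B →ₗ[R.B] N.B →ₗ[R.B] P.B

/-- The pairing at `C₂/C₂`. -/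
def PrePairing.top {R : Green} {M N P : RMod R} (L : PrePairing M N P) (x : M.T) (y : N.T) :
    P.T := L.LT x y

/-- The pairing at `C₂/e`. -/
def PrePairing.bot {R : Green} {M N P : RMod R} (L : PrePairing M N P) (x : M.B) (y : N.B) :
    P.B := L.LB x y

/-- An `R`-bilinear (Dress) pairing of `M` and `N` with values in `P`; these pairings are the maps
of `R`-modules from `M ⊠_R N` to `P`. -/
structure Pairing {R : Green} (M N P : RMod R) extends PrePairing M N P where
  w : ∀ x y, P.w (toPrePairing.bot x y) = toPrePairing.bot (M.w x) (N.w y)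
  res : ∀ x y, P.res (toPrePairing.top x y) = toPrePairing.bot (M.res x) (N.res y)
  trl : ∀ x y, P.tr (toPrePairing.bot x (N.res y)) = toPrePairing.top (M.tr x) y
  trr : ∀ x y, P.tr (toPrePairing.bot (M.res x) y) = toPrePairing.top x (N.tr y)

lemma Pairing.w' {R : Green} {M N P : RMod R} (L : Pairing M N P) (x : M.B) (y : N.B) :
    P.w (L.LB x y) = L.LB (M.w x) (N.w y) := L.w x y

lemma Pairing.res' {R : Green} {M N P : RMod R} (L : Pairing M N P) (x : M.T) (y : N.T) :
    P.res (L.LT x y) = L.LB (M.res x) (N.res y) := L.res x y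

lemma Pairing.trl' {R : Green} {M N P : RMod R} (L : Pairing M N P) (x : M.B) (y : N.T) :
    P.tr (L.LB x (N.res y)) = L.LT (M.tr x) y := L.trl x y

lemma Pairing.trr' {R : Green} {M N P : RMod R} (L : Pairing M N P) (x : M.T) (y : N.B) :
    P.tr (L.LB (M.res x) y) = L.LT x (N.tr y) := L.trr x y

/-- `P`, with the pairing `L`, is the box product `M ⊠_R N`: every pairing factors uniquely through
`L`. -/
def IsBox {R : Green} {M N P : RMod R} (L : Pairing M N P) : Prop :=
  ∀ (Q : RMod R) (Λ : Pairing M N Q), ∃! h : P.Hom Q,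
    (∀ x y, h.top (L.top x y) = Λ.top x y) ∧ ∀ x y, h.bot (L.bot x y) = Λ.bot x y

/-- `M` is flat over `R`: for every injective map `f : N → N'` of `R`-modules the map
`h : M ⊠_R N → M ⊠_R N'` induced by `f` is injective. -/
def Flat {R : Green} (M : RMod R) : Prop :=
  ∀ (N N' : RMod R) (f : N.Hom N'), Injective f.top → Injective f.bot →
    ∀ (P P' : RMod R) (L : Pairing M N P) (L' : Pairing M N' P'), IsBox L → IsBox L' →
      ∀ h : P.Hom P', (∀ x y, h.top (L.top x y) = L'.top x (f.top y)) →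
        (∀ x y, h.bot (L.bot x y) = L'.bot x (f.bot y)) → Injective h.top ∧ Injective h.bot

/-- A commutative `R`-algebra `φ : R → S` as an `R`-module. -/
def asMod {R S : Green} (φ : R.Hom S) : RMod R where
  T := S.T
  B := S.B
  mT := Module.compHom S.T φ.fT
  mB := Module.compHom S.B φ.fB
  w := S.w.toAddMonoidHom
  res := S.res.toAddMonoidHom
  tr := S.tr
  w_w := S.w_w
  w_res := S.w_res
  tr_w := S.tr_w
  res_tr := S.res_tr
  w_smul a x := by
    change S.w (φ.fB a * x) = φ.fB (R.w a) * S.w x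
    rw [map_mul, φ.w]
  res_smul r x := by
    change S.res (φ.fT r * x) = φ.fB (R.res r) * S.res x
    rw [map_mul, φ.res]
  tr_smul_res a x := by
    change S.tr (φ.fB a * S.res x) = φ.fT (R.tr a) * x
    rw [S.frob, φ.tr]
  tr_res_smul r x := by
    change S.tr (φ.fB (R.res r) * x) = φ.fT r * S.tr x
    rw [φ.res, mul_comm, S.frob, mul_comm]

/-- `φ : R → S` is the localization `R[b⁻¹]` at the element `b ∈ R(C₂/e)`: the initial commutative
`R`-algebra in which the image of `b` is a unit. -/
def IsLoc {R S : Green} (φ : R.Hom S) (b : R.B) : Prop :=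
  IsUnit (φ.fB b) ∧ ∀ (S' : Green) (ψ : R.Hom S'), IsUnit (ψ.fB b) → ∃! θ : S.Hom S',
    (∀ x, θ.fT (φ.fT x) = ψ.fT x) ∧ ∀ x, θ.fB (φ.fB x) = ψ.fB x

/-- The additive group `ℤ ⊕ C t`. -/
def Tw (C : Type) : Type := ℤ × C

namespace Tw

variable {C : Type}

lemma ext' {p q : Tw C} (h1 : p.1 = q.1) (h2 : p.2 = q.2) : p = q := Prod.ext h1 h2

variable [CommRing C]

instance : AddCommGroup (Tw C) := inferInstanceAs (AddCommGroup (ℤ × C))

instance : Mul (Tw C) := ⟨fun p q => (p.1 * q.1, p.1 • q.2 + q.1 • p.2 + 2 * p.2 * q.2)⟩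

instance : One (Tw C) := ⟨((1 : ℤ), (0 : C))⟩

@[simp] lemma add1 (p q : Tw C) : (p + q).1 = p.1 + q.1 := rfl
@[simp] lemma add2 (p q : Tw C) : (p + q).2 = p.2 + q.2 := rfl
@[simp] lemma zero1 : (0 : Tw C).1 = 0 := rfl
@[simp] lemma zero2 : (0 : Tw C).2 = 0 := rfl
@[simp] lemma one1 : (1 : Tw C).1 = 1 := rfl
@[simp] lemma one2 : (1 : Tw C).2 = 0 := rfl
@[simp] lemma mul1 (p q : Tw C) : (p * q).1 = p.1 * q.1 := rfl
@[simp] lemma mul2 (p q : Tw C) : (p * q).2 = p.1 • q.2 + q.1 • p.2 + 2 * p.2 * q.2 := rfl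

/-- The multiplication of `ℤ ⊕ C t` with `t² = 2 t`. -/
instance : CommRing (Tw C) :=
  { (inferInstance : AddCommGroup (Tw C)), (inferInstance : Mul (Tw C)),
    (inferInstance : One (Tw C)) with
    mul_assoc := fun a b c => ext' (by simp only [mul1]; ring)
      (by simp only [mul1, mul2, zsmul_eq_mul, Int.cast_mul]; ring)
    one_mul := fun a => ext' (by simp) (by simp)
    mul_one := fun a => ext' (by simp) (by simp)
    left_distrib := fun a b c => ext' (by simp only [mul1, add1]; ring)
      (by simp only [add1, add2, mul2, zsmul_eq_mul, Int.cast_add]; ring)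
    right_distrib := fun a b c => ext' (by simp only [mul1, add1]; ring)
      (by simp only [add1, add2, mul2, zsmul_eq_mul, Int.cast_add]; ring)
    zero_mul := fun a => ext' (by simp) (by simp)
    mul_zero := fun a => ext' (by simp) (by simp)
    mul_comm := fun a b => ext' (by simp only [mul1]; ring)
      (by simp only [mul2, zsmul_eq_mul]; ring) }

end Tw

/-- The Green functor with bottom `C` (trivial action) and top `ℤ ⊕ C t`, `t² = 2 t`, where
`res (m + u t) = m + 2 u` and `tr u = u t`. -/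
def G (C : Type) [CommRing C] : Green where
  T := Tw C
  B := C
  w := RingHom.id C
  res :=
    { toFun := fun p => (p.1 : C) + 2 * p.2
      map_one' := by simp
      map_zero' := by simp
      map_mul' := fun p q => by
        simp only [Tw.mul1, Tw.mul2, zsmul_eq_mul, Int.cast_mul]; ring
      map_add' := fun p q => by
        simp only [Tw.add1, Tw.add2, Int.cast_add]; ring }
  tr :=
    { toFun := fun u => ((0 : ℤ), u)
      map_zero' := rfl
      map_add' := fun u v => Tw.ext' (by change (0 : ℤ) = 0 + 0; simp) rfl }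
  w_w _ := rfl
  w_res _ := rfl
  tr_w _ := rfl
  res_tr x := by
    change ((0 : ℤ) : C) + 2 * x = x + x
    rw [Int.cast_zero]; ring
  frob a x := by
    apply Tw.ext'
    · change (0 : ℤ) = 0 * x.1
      rw [zero_mul]
    · change a * ((x.1 : C) + 2 * x.2) = (0 : ℤ) • x.2 + x.1 • a + 2 * a * x.2
      rw [zero_smul, zsmul_eq_mul]; ring

/-- The Burnside Green functor of `C₂`: `A(C₂/C₂) = ℤ ⊕ ℤ t` is the Burnside ring, `t` the class of
the free orbit `C₂`, and `A(C₂/e) = ℤ`. -/
def burnside : Green := G ℤ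

/-- The map of Green functors `A → G C`. -/
def toG (C : Type) [CommRing C] : burnside.Hom (G C) where
  fT :=
    { toFun := fun p => ((p.1 : ℤ), ((p.2 : ℤ) : C))
      map_one' := Tw.ext' rfl (by change ((0 : ℤ) : C) = 0; simp)
      map_zero' := Tw.ext' rfl (by change ((0 : ℤ) : C) = 0; simp)
      map_mul' := fun p q => Tw.ext' rfl (by
        change ((p.1 • q.2 + q.1 • p.2 + 2 * p.2 * q.2 : ℤ) : C) =
          p.1 • ((q.2 : ℤ) : C) + q.1 • ((p.2 : ℤ) : C) + 2 * ((p.2 : ℤ) : C) * ((q.2 : ℤ) : C)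
        simp only [zsmul_eq_mul]; push_cast; ring)
      map_add' := fun p q => Tw.ext' rfl (by
        change ((p.2 + q.2 : ℤ) : C) = ((p.2 : ℤ) : C) + ((q.2 : ℤ) : C)
        push_cast; ring) }
  fB := Int.castRingHom C
  w _ := rfl
  res x := by
    change (((x.1 : ℤ) + 2 * x.2 : ℤ) : C) = ((x.1 : ℤ) : C) + 2 * ((x.2 : ℤ) : C)
    push_cast; ring
  tr x := rfl

/-! ### The localization -/

section Loc

variable {C : Type} [CommRing C]

/-- The multiple `u t` of `t`. -/
def Tw.t (u : C) : Tw C := ((0 : ℤ), u)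

lemma Tw.decomp (p : Tw C) : p = ((p.1 : ℤ) : Tw C) + Tw.t p.2 := by
  have h : ((p.1 : ℤ) : Tw C) = ((p.1, (0 : C)) : ℤ × C) := by
    rw [← zsmul_one]
    apply Tw.ext'
    · change p.1 • (1 : ℤ) = p.1
      simp
    · change p.1 • (0 : C) = 0
      simp
  rw [h]
  apply Tw.ext'
  · change p.1 = p.1 + 0
    simp
  · change p.2 = 0 + p.2
    simp

/-- The map of Green functors given by a ring homomorphism into the fixed elements of `S(C₂/e)`. -/
def extend (S : Green) (g : C →+* S.B) (hg : ∀ x, S.w (g x) = g x) : (G C).Hom S where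
  fT :=
    { toFun := fun p => ((p.1 : ℤ) : S.T) + S.tr (g p.2)
      map_one' := by
        change (((1 : ℤ)) : S.T) + S.tr (g 0) = 1
        simp
      map_zero' := by
        change (((0 : ℤ)) : S.T) + S.tr (g 0) = 0
        simp
      map_mul' := fun p q => by
        change ((p.1 * q.1 : ℤ) : S.T) + S.tr (g (p.1 • q.2 + q.1 • p.2 + 2 * p.2 * q.2)) =
          (((p.1 : ℤ) : S.T) + S.tr (g p.2)) * (((q.1 : ℤ) : S.T) + S.tr (g q.2))
        have h1 : S.tr (g p.2) * S.tr (g q.2) = S.tr (g (2 * p.2 * q.2)) := by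
          have h := S.frob (g p.2) (S.tr (g q.2))
          rw [S.res_tr, hg] at h
          have h2 : g (2 * p.2 * q.2) = g p.2 * (g q.2 + g q.2) := by
            rw [map_mul g, map_mul g, map_ofNat g]
            ring
          rw [h2, h]
        rw [map_add, map_add, map_add, map_add, ← h1, map_zsmul, map_zsmul, map_zsmul, map_zsmul,
          zsmul_eq_mul, zsmul_eq_mul, Int.cast_mul]
        ring
      map_add' := fun p q => by
        change ((p.1 + q.1 : ℤ) : S.T) + S.tr (g (p.2 + q.2)) =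
          (((p.1 : ℤ) : S.T) + S.tr (g p.2)) + (((q.1 : ℤ) : S.T) + S.tr (g q.2))
        rw [map_add, map_add, Int.cast_add]
        ring }
  fB := g
  w x := (hg x).symm
  res x := by
    change g (((x.1 : ℤ) : C) + 2 * x.2) = S.res (((x.1 : ℤ) : S.T) + S.tr (g x.2))
    rw [map_add, map_add, map_mul, map_intCast, map_intCast, map_ofNat, S.res_tr, hg]
    ring
  tr x := by
    change (((0 : ℤ)) : S.T) + S.tr (g x) = S.tr (g x)
    simp

lemma hom_eq {S : Green} {θ θ' : (G C).Hom S} (h : θ.fB = θ'.fB) : θ = θ' := by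
  apply Green.Hom.ext _ h
  ext p
  have e1 : ∀ η : (G C).Hom S, η.fT p = ((p.1 : ℤ) : S.T) + S.tr (η.fB p.2) := by
    intro η
    have h1 : η.fT p = η.fT (((p.1 : ℤ) : (G C).T) + (G C).tr p.2) :=
      congrArg η.fT (Tw.decomp p)
    exact h1.trans ((map_add η.fT _ _).trans
      (congrArg₂ (· + ·) (map_intCast η.fT p.1) (η.tr p.2)))
  rw [e1, e1, h]

theorem isLoc (b : ℤ) [IsLocalization.Away b C] : IsLoc (toG C) (b : burnside.B) := by
  constructor
  · have h := IsLocalization.Away.algebraMap_isUnit (S := C) b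
    exact h
  · intro S ψ hψ
    have hψ' : IsUnit ((ψ.fB : ℤ →+* S.B) b) := hψ
    obtain ⟨g, hg⟩ : ∃ g : C →+* S.B, ∀ n : ℤ, g (algebraMap ℤ C n) = (ψ.fB : ℤ →+* S.B) n :=
      ⟨IsLocalization.Away.lift b hψ', fun n => IsLocalization.Away.lift_eq b hψ' n⟩
    have hext : ∀ g₁ g₂ : C →+* S.B, g₁ = g₂ := fun g₁ g₂ =>
      IsLocalization.ringHom_ext (Submonoid.powers b) (RingHom.ext_int _ _)
    have hw : ∀ x, S.w (g x) = g x := fun x =>
      congrArg (fun k : C →+* S.B => k x) (hext (S.w.comp g) g)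
    refine ⟨extend S g hw, ⟨?_, ?_⟩, ?_⟩
    · intro x
      change (((x.1 : ℤ)) : S.T) + S.tr (g ((x.2 : ℤ) : C)) = ψ.fT x
      have e : ψ.fT x = ((x.1 : ℤ) : S.T) + S.tr (ψ.fB x.2) := by
        have h1 : ψ.fT x = ψ.fT (((x.1 : ℤ) : burnside.T) + burnside.tr x.2) :=
          congrArg ψ.fT (Tw.decomp (C := ℤ) x)
        exact h1.trans ((map_add ψ.fT _ _).trans
          (congrArg₂ (· + ·) (map_intCast ψ.fT x.1) (ψ.tr x.2)))
      rw [e]
      congr 2
      exact hg x.2
    · intro x
      exact hg x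
    · intro θ _
      exact hom_eq (hext _ _)

end Loc

/-! ### Modules over the Burnside Green functor -/

section Mod

/-- An integer as an element of `A(C₂/e)`. -/
def ofZ (n : ℤ) : burnside.B := n

/-- An element of `ℤ ⊕ ℤ t` as an element of `A(C₂/C₂)`. -/
def ofTw (p : Tw ℤ) : burnside.T := p

lemma smul_bot (Q : RMod burnside) (n : ℤ) (y : Q.B) : ofZ n • y = n • y := by
  have h := Int.cast_smul_eq_zsmul burnside.B n y
  have h2 : ((n : ℤ) : burnside.B) = ofZ n := Int.cast_id
  rw [← h2]
  exact h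

lemma smul_top (Q : RMod burnside) (p : Tw ℤ) (x : Q.T) :
    ofTw p • x = p.1 • x + p.2 • Q.tr (Q.res x) := by
  have h1 : ofTw p = ((p.1 : ℤ) : burnside.T) + burnside.tr p.2 :=
    Tw.decomp p
  have h2 : burnside.tr p.2 • x = Q.tr (Q.res (p.2 • x)) := by
    rw [map_zsmul]
    exact (Q.tr_smul_res p.2 x).symm.trans (congrArg Q.tr (smul_bot Q p.2 (Q.res x)))
  have h3 : (((p.1 : ℤ) : burnside.T) + burnside.tr p.2) • x = p.1 • x + Q.tr (Q.res (p.2 • x)) := by
    rw [add_smul, Int.cast_smul_eq_zsmul, h2]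
  have h4 : Q.tr (Q.res (p.2 • x)) = p.2 • Q.tr (Q.res x) := by
    rw [map_zsmul, map_zsmul]
  rw [← h4, ← h3]
  exact congrArg (fun r : burnside.T => r • x) h1

/-- The module over the Burnside Green functor given by a Mackey functor. -/
def ofMackey (T B : Type) [AddCommGroup T] [AddCommGroup B] (w : B →+ B) (res : T →+ B)
    (tr : B →+ T) (w_w : ∀ x, w (w x) = x) (w_res : ∀ x, w (res x) = res x)
    (tr_w : ∀ x, tr (w x) = tr x) (res_tr : ∀ x, res (tr x) = x + w x) : RMod burnside where
  T := T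
  B := B
  mT :=
    { smul := fun p x => (show Tw ℤ from p).1 • x + (show Tw ℤ from p).2 • tr (res x)
      one_smul := fun x => by
        change (1 : ℤ) • x + (0 : ℤ) • tr (res x) = x
        simp
      mul_smul := fun p q x => by
        change (p.1 * q.1 : ℤ) • x + (p.1 • q.2 + q.1 • p.2 + 2 * p.2 * q.2 : ℤ) • tr (res x) =
          (p.1 : ℤ) • ((q.1 : ℤ) • x + (q.2 : ℤ) • tr (res x)) +
            (p.2 : ℤ) • tr (res ((q.1 : ℤ) • x + (q.2 : ℤ) • tr (res x)))
        have e : tr (res ((q.1 : ℤ) • x + (q.2 : ℤ) • tr (res x))) =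
            (q.1 : ℤ) • tr (res x) + (2 * q.2 : ℤ) • tr (res x) := by
          rw [map_add, map_add, map_zsmul, map_zsmul, map_zsmul, map_zsmul, res_tr, w_res, ← two_smul ℤ,
            map_zsmul, smul_smul]
          congr 2
          ring
        rw [e]
        simp only [smul_eq_mul]
        module
      smul_zero := fun p => by
        change (p.1 : ℤ) • (0 : T) + (p.2 : ℤ) • tr (res 0) = 0
        simp
      smul_add := fun p x y => by
        change (p.1 : ℤ) • (x + y) + (p.2 : ℤ) • tr (res (x + y)) =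
          ((p.1 : ℤ) • x + (p.2 : ℤ) • tr (res x)) + ((p.1 : ℤ) • y + (p.2 : ℤ) • tr (res y))
        rw [map_add, map_add]
        module
      add_smul := fun p q x => by
        change (p.1 + q.1 : ℤ) • x + (p.2 + q.2 : ℤ) • tr (res x) =
          ((p.1 : ℤ) • x + (p.2 : ℤ) • tr (res x)) + ((q.1 : ℤ) • x + (q.2 : ℤ) • tr (res x))
        module
      zero_smul := fun x => by
        change (0 : ℤ) • x + (0 : ℤ) • tr (res x) = 0
        simp }
  mB := (inferInstance : Module ℤ B)
  w := w
  res := res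
  tr := tr
  w_w := w_w
  w_res := w_res
  tr_w := tr_w
  res_tr := res_tr
  w_smul a x := by
    change w ((show ℤ from a) • x) = (show ℤ from a) • w x
    rw [map_zsmul]
  res_smul r x := by
    change res ((r.1 : ℤ) • x + (r.2 : ℤ) • tr (res x)) = ((r.1 : ℤ) + 2 * r.2 : ℤ) • res x
    rw [map_add, map_zsmul, map_zsmul, res_tr, w_res]
    module
  tr_smul_res a x := by
    change tr ((show ℤ from a) • res x) = (0 : ℤ) • x + (show ℤ from a) • tr (res x)
    rw [map_zsmul, zero_smul, zero_add]
  tr_res_smul r x := by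
    change tr (((r.1 : ℤ) + 2 * r.2 : ℤ) • x) = (r.1 : ℤ) • tr x + (r.2 : ℤ) • tr (res (tr x))
    rw [map_zsmul, res_tr, map_add, tr_w]
    module

end Mod

section Build

variable {M N P Q : RMod burnside}

/-- An element of `A(C₂/e)` as an integer. -/
def toZ (n : burnside.B) : ℤ := n

/-- An element of `A(C₂/C₂)` as an element of `ℤ ⊕ ℤ t`. -/
def toTw (p : burnside.T) : Tw ℤ := p

lemma bot_smul (Q : RMod burnside) (n : burnside.B) (y : Q.B) : n • y = toZ n • y :=
  smul_bot Q (toZ n) y

lemma top_smul (Q : RMod burnside) (p : burnside.T) (x : Q.T) :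
    p • x = (toTw p).1 • x + (toTw p).2 • Q.tr (Q.res x) :=
  smul_top Q (toTw p) x

/-- A map of Mackey functors is a map of modules over the Burnside Green functor. -/
def homOf (fT : P.T →+ Q.T) (fB : P.B →+ Q.B) (hw : ∀ x, fB (P.w x) = Q.w (fB x))
    (hres : ∀ x, fB (P.res x) = Q.res (fT x)) (htr : ∀ x, fT (P.tr x) = Q.tr (fB x)) :
    P.Hom Q where
  fT :=
    { fT with
      map_smul' := fun r x => by
        change fT (r • x) = r • fT x
        rw [top_smul, top_smul, map_add, map_zsmul, map_zsmul, htr, hres] }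
  fB :=
    { fB with
      map_smul' := fun r x => by
        change fB (r • x) = r • fB x
        rw [bot_smul, bot_smul, map_zsmul] }
  w := hw
  res := hres
  tr := htr

/-- A biadditive pairing of Mackey functors is bilinear over the Burnside Green functor. -/
def pairOf (LT : M.T →+ N.T →+ P.T) (LB : M.B →+ N.B →+ P.B)
    (hw : ∀ x y, P.w (LB x y) = LB (M.w x) (N.w y))
    (hres : ∀ x y, P.res (LT x y) = LB (M.res x) (N.res y))
    (htrl : ∀ x y, P.tr (LB x (N.res y)) = LT (M.tr x) y)
    (htrr : ∀ x y, P.tr (LB (M.res x) y) = LT x (N.tr y)) : Pairing M N P where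
  LT := LinearMap.mk₂ burnside.T (fun x y => LT x y)
    (fun x x' y => by simp) (fun r x y => by
      rw [top_smul M, top_smul P, map_add, map_zsmul, map_zsmul, AddMonoidHom.add_apply,
        AddMonoidHom.coe_smul, AddMonoidHom.coe_smul, Pi.smul_apply, Pi.smul_apply, ← htrl, hres])
    (fun x y y' => by simp) (fun r x y => by
      rw [top_smul N, top_smul P, map_add, map_zsmul, map_zsmul, ← htrr, hres])
  LB := LinearMap.mk₂ burnside.B (fun x y => LB x y)
    (fun x x' y => by simp) (fun r x y => by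
      rw [bot_smul M, bot_smul P, map_zsmul, AddMonoidHom.coe_smul, Pi.smul_apply])
    (fun x y y' => by simp) (fun r x y => by
      rw [bot_smul N, bot_smul P, map_zsmul])
  w := hw
  res := hres
  trl := htrl
  trr := htrr

end Build

/-! ### The example -/

/-- The module with value `ℤ/2` at `C₂/C₂` and `0` at `C₂/e`. -/
def MM : RMod burnside :=
  ofMackey (ZMod 2) Unit 0 0 0 (fun _ => rfl) (fun _ => rfl) (fun _ => rfl) (fun _ => rfl)

/-- The module with value `ℤ/2` at `C₂/C₂` and the sign representation `ℤ` at `C₂/e`; the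
restriction is `0` and the transfer is the surjection `ℤ → ℤ/2`. -/
def NN : RMod burnside :=
  ofMackey (ZMod 2) ℤ (-AddMonoidHom.id ℤ) 0 (Int.castAddHom (ZMod 2))
    (fun x => by simp) (fun x => by simp)
    (fun x => by
      change (((-x : ℤ)) : ZMod 2) = ((x : ℤ) : ZMod 2)
      rw [Int.cast_neg]
      exact ZMod.neg_eq_self_mod_two _)
    (fun x => by simp)

/-- The inclusion. -/
def ff : MM.Hom NN := homOf (P := MM) (Q := NN) (AddMonoidHom.id (ZMod 2)) 0 (fun _ => by simp)
  (fun _ => rfl) (fun _ => rfl)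

section Final

variable (C : Type) [CommRing C]

/-- `G C` as a module over the Burnside Green functor. -/
def SS : RMod burnside := asMod (toG C)

/-- The module with value `0` at `C₂/C₂` and the sign representation on `C` at `C₂/e`. -/
def PP : RMod burnside :=
  ofMackey Unit C (-AddMonoidHom.id C) 0 0
    (fun x => by simp) (fun x => by simp) (fun _ => rfl) (fun x => by simp)

/-- The pairing of `G C` and `MM`. -/
def L1 : Pairing (SS C) MM MM :=
  pairOf (M := SS C) (N := MM) (P := MM)
    ((AddMonoidHom.mul (R := ZMod 2)).comp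
      ((Int.castAddHom (ZMod 2)).comp (AddMonoidHom.fst ℤ C))) 0
    (fun _ _ => rfl) (fun _ _ => rfl)
    (fun _ y => by
      change (0 : ZMod 2) = (((0 : ℤ)) : ZMod 2) * (show ZMod 2 from y)
      rw [Int.cast_zero, zero_mul])
    (fun x _ => by
      change (0 : ZMod 2) = ((((show Tw C from x).1 : ℤ)) : ZMod 2) * 0
      rw [mul_zero])

/-- The pairing of `G C` and `NN`. -/
def L2 : Pairing (SS C) NN (PP C) :=
  pairOf (M := SS C) (N := NN) (P := PP C) 0 (smulAddHom ℤ C).flip
    (fun x y => by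
      change -((show ℤ from y) • (show C from x)) = (-(show ℤ from y)) • (show C from x)
      rw [neg_smul])
    (fun x y => (zero_smul ℤ (show C from (SS C).res x)).symm)
    (fun _ _ => rfl) (fun _ _ => rfl)

variable {C}

/-- Elements of the top of `G C`. -/
def sT (p : Tw C) : (SS C).T := p

/-- Elements of the top of `G C`. -/
def sT' (p : (SS C).T) : Tw C := p

/-- Elements of the bottom of `G C`. -/
def sB (c : C) : (SS C).B := c

/-- Elements of the bottom of `G C`. -/
def sB' (c : (SS C).B) : C := c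

/-- Elements of the bottom of `NN`. -/
def nB (n : ℤ) : NN.B := n

/-- Elements of the bottom of `NN`. -/
def nB' (n : NN.B) : ℤ := n

lemma top_decomp (s : (SS C).T) : s = (sT' s).1 • sT 1 + (SS C).tr (sB (sT' s).2) := by
  have h := Tw.decomp (sT' s)
  rw [← zsmul_one] at h
  exact h

lemma bot_decomp (n : NN.B) : n = nB' n • nB 1 := by
  have h : nB' n = nB' n • (1 : ℤ) := by simp
  exact h

lemma one_T {Q : RMod burnside} (Λ : Pairing (SS C) MM Q) (s : (SS C).T) (m : MM.T) :
    Λ.LT s m = (sT' s).1 • Λ.LT (sT 1) m := by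
  have h2 : Λ.LT ((SS C).tr (sB (sT' s).2)) m = 0 := by
    rw [← Λ.trl']
    have : MM.res m = 0 := rfl
    rw [this, map_zero, map_zero]
  conv_lhs => rw [top_decomp s]
  rw [map_add, LinearMap.add_apply, h2, add_zero, map_zsmul, LinearMap.smul_apply]

lemma one_B {Q : RMod burnside} (Λ : Pairing (SS C) NN Q) (c : (SS C).B) (n : NN.B) :
    Λ.LB c n = nB' n • Λ.LB c (nB 1) := by
  conv_lhs => rw [bot_decomp n]
  rw [map_zsmul]

lemma box1 : IsBox (L1 C) := by
  intro Q Λ
  refine ⟨homOf (P := MM) (Q := Q) (Λ.LT (sT 1)).toAddMonoidHom 0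
    (fun x => ?_) (fun x => ?_) (fun x => ?_), ⟨fun s m => ?_, fun x y => ?_⟩, ?_⟩
  · simp
  · change (0 : Q.B) = Q.res (Λ.LT (sT 1) x)
    rw [Λ.res']
    have : MM.res x = 0 := rfl
    rw [this, map_zero]
  · have e : MM.tr x = 0 := rfl
    change Λ.LT (sT 1) (MM.tr x) = Q.tr (0 : Q.B)
    exact (congrArg (Λ.LT (sT 1)) e).trans ((map_zero _).trans (map_zero _).symm)
  · refine Eq.trans ?_ (one_T Λ s m).symm
    have e : (L1 C).LT s m = (sT' s).1 • m := by
      change ((((sT' s).1 : ℤ)) : ZMod 2) * (show ZMod 2 from m) =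
        ((sT' s).1 : ℤ) • (show ZMod 2 from m)
      rw [zsmul_eq_mul]
    have e2 : Λ.LT (sT 1) ((L1 C).LT s m) = (sT' s).1 • Λ.LT (sT 1) m := by
      rw [e, map_zsmul]
    exact e2
  · have e : y = 0 := rfl
    change (0 : Q.B) = Λ.LB x y
    rw [e, map_zero]
  · rintro h' ⟨h1, _⟩
    apply RMod.Hom.ext
    · ext m
      have h3 : h'.fT ((L1 C).LT (sT 1) m) = Λ.LT (sT 1) m := h1 (sT 1) m
      have e : (L1 C).LT (sT 1) m = m := by
        change ((((1 : ℤ)) : ZMod 2) * (show ZMod 2 from m)) = (show ZMod 2 from m)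
        rw [Int.cast_one, one_mul]
      rw [e] at h3
      exact h3
    · ext m
      have e : m = 0 := rfl
      rw [e, map_zero, map_zero]

lemma tr_zero (h2 : ∃ c : C, 2 * c = 1) {Q : RMod burnside} (Λ : Pairing (SS C) NN Q)
    (c : (SS C).B) : Q.tr (Λ.LB c (nB 1)) = 0 := by
  obtain ⟨c₀, hc₀⟩ := h2
  have h1 : ∀ c : (SS C).B, (2 : ℤ) • Q.tr (Λ.LB c (nB 1)) = 0 := by
    intro c
    have e1 := Q.tr_w (Λ.LB c (nB 1))
    rw [Λ.w'] at e1
    have e2 : (SS C).w c = c := rfl
    have e3 : NN.w (nB 1) = - nB 1 := rfl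
    rw [e2, e3, map_neg, map_neg] at e1
    rw [two_smul]
    nth_rewrite 1 [← e1]
    exact neg_add_cancel _
  have e : c = (2 : ℤ) • sB (c₀ * sB' c) := by
    have : sB' c = (2 : ℤ) • (c₀ * sB' c) := by
      rw [zsmul_eq_mul, ← mul_assoc, Int.cast_ofNat, hc₀, one_mul]
    exact this
  have e4 : Λ.LB c (nB 1) = (2 : ℤ) • Λ.LB (sB (c₀ * sB' c)) (nB 1) := by
    conv_lhs => rw [e]
    rw [map_zsmul, LinearMap.smul_apply]
  rw [e4, map_zsmul]
  exact h1 _

lemma box2 (h2 : ∃ c : C, 2 * c = 1) : IsBox (L2 C) := by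
  intro Q Λ
  refine ⟨homOf (P := PP C) (Q := Q) 0 (Λ.LB.flip (nB 1)).toAddMonoidHom
    (fun x => ?_) (fun x => ?_) (fun x => ?_), ⟨fun s m => ?_, fun x y => ?_⟩, ?_⟩
  · have e : ∀ z : (SS C).B, Λ.LB (-z) (nB 1) = Q.w (Λ.LB z (nB 1)) := by
      intro z
      rw [Λ.w']
      have e1 : NN.w (nB 1) = - nB 1 := rfl
      have e2 : (SS C).w z = z := rfl
      rw [e1, e2, map_neg, map_neg, LinearMap.neg_apply]
    exact e x
  · have e : Λ.LB (0 : (SS C).B) (nB 1) = Q.res 0 := by
      rw [map_zero, map_zero, LinearMap.zero_apply]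
    exact e
  · exact (tr_zero h2 Λ x).symm
  · change (0 : Q.T) = Λ.LT s m
    obtain ⟨k, hk⟩ : ∃ k : NN.B, NN.tr k = m := ZMod.intCast_surjective (n := 2) m
    rw [← hk, ← Λ.trr', one_B, map_zsmul, tr_zero h2, smul_zero]
  · have e : Λ.LB (nB' y • x) (nB 1) = Λ.LB x y := by
      rw [one_B Λ x y, map_zsmul, LinearMap.smul_apply]
    exact e
  · rintro h' ⟨_, h1⟩
    apply RMod.Hom.ext
    · ext m
      have e : m = 0 := rfl
      rw [e, map_zero, map_zero]
    · ext m
      have h3 : h'.fB ((L2 C).LB m (nB 1)) = Λ.LB m (nB 1) := h1 m (nB 1)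
      have e : (L2 C).LB m (nB 1) = m := by
        change (1 : ℤ) • (show C from m) = m
        exact one_smul ℤ (show C from m)
      rw [e] at h3
      exact h3

variable (C)

theorem not_flat (h2 : ∃ c : C, 2 * c = 1) : ¬ Flat (asMod (toG C)) := by
  intro h
  have h1 := h MM NN ff (fun _ _ e => e) (fun _ _ _ => rfl) MM (PP C) (L1 C) (L2 C) box1
    (box2 h2) (homOf (P := MM) (Q := PP C) 0 0 (fun _ => by simp) (fun _ => rfl) (fun _ => rfl))
    (fun _ _ => rfl) (fun x y => (zero_smul ℤ (show C from x)).symm)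
  have h3 : (0 : ZMod 2) = 1 := @h1.1 (0 : ZMod 2) (1 : ZMod 2) rfl
  exact absurd h3 (by decide)

end Final

theorem main (b : ℤ) (hb : Even b) : ∃ (S : Green) (φ : burnside.Hom S),
    IsLoc φ (b : burnside.B) ∧ ¬ Flat (asMod φ) := by
  have hloc : @IsLocalization.Away ℤ _ b (Localization.Away b) _
      (Ring.toIntAlgebra (Localization.Away b)) := by
    have h : Ring.toIntAlgebra (Localization.Away b) =
        (OreLocalization.instAlgebra : Algebra ℤ (Localization.Away b)) := Subsingleton.elim _ _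
    rw [h]
    infer_instance
  refine ⟨G (Localization.Away b), toG (Localization.Away b), @isLoc _ _ b hloc, not_flat _ ?_⟩
  obtain ⟨c, hc⟩ := hb
  obtain ⟨u, hu⟩ := (@IsLocalization.Away.algebraMap_isUnit ℤ _ (Localization.Away b) _
    (Ring.toIntAlgebra (Localization.Away b)) b hloc).exists_right_inv
  refine ⟨((c : ℤ) : Localization.Away b) * u, ?_⟩
  have h1 : ((b : ℤ) : Localization.Away b) * u = 1 := hu
  have h2 : ((b : ℤ) : Localization.Away b) = 2 * ((c : ℤ) : Localization.Away b) := by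
    have := congrArg (fun z : ℤ => ((z : ℤ) : Localization.Away b)) hc
    simp only [Int.cast_add] at this
    rw [this]
    ring
  rw [h2] at h1
  rw [← mul_assoc]
  exact h1

/-- The Burnside Green functor is the initial commutative Green functor. -/
theorem burnside_initial (S : Green) : ∃! _φ : burnside.Hom S, True := by
  refine ⟨extend S (Int.castRingHom S.B) (fun x => ?_), trivial, fun φ _ => ?_⟩
  · change S.w ((x : ℤ) : S.B) = ((x : ℤ) : S.B)
    exact map_intCast S.w x
  · exact hom_eq (RingHom.ext_int _ _)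

/-- **Localizing a Green functor at a non-top level need not be flat.** Let `A` be the Burnside
Green functor of `C₂`, that is, the initial commutative Green functor. For every even integer `b`
(for instance `b = 2`), regarded as an element of `A(C₂/e)`, the localization `A[b⁻¹]` is not flat
over `A`. -/
theorem result : ∃ A : Green, (∀ S : Green, ∃! _φ : A.Hom S, True) ∧
    ∀ b : ℤ, Even b → ∃ (S : Green) (φ : A.Hom S),
      IsLoc φ (b : A.B) ∧ ¬ Flat (asMod φ) := by
  refine ⟨burnside, burnside_initial, fun b hb => ?_⟩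
  obtain ⟨S, φ, h1, h2⟩ := main b hb
  refine ⟨S, φ, ?_, h2⟩
  have h3 : ((b : ℤ) : burnside.B) = ofZ b := Int.cast_id
  rw [h3]
  exact h1

end Pool.Agent.Results.MP_196a0c_al.EvenInversion
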