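import Pool.Agent.V11265.GF1

/-!
# Localizing a Green functor at a non-top level need not be flat

For the group `C₂` of order two, `H = e` and `b ∈ R(C₂/e)` with `b · w(b)` nilpotent (for
instance `b = 0`), the localization `R[b⁻¹]` is `(R(C₂/C₂)/tr, 0)`; it is flat over `R` if and
only if `a + w(a) = 1` for some `a ∈ R(C₂/e)`.  For the Burnside Green functor it is not flat.
-/

universe u

namespace Pool.Agent.Results.MP_196a0c_al.NotFlat

open Pool.Agent.V11265.GF

theorem result :
    (∀ (R : Green.{u}) (b : R.R0), IsNilpotent (b * R.w b) →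
      ∃ (S : Green.{u}) (ι : GHom R S), IsLoc b ι ∧
        (Flat ι.toMod ↔ ∃ a : R.R0, a + R.w a = 1)) ∧
    ∃ (S : Green.{0}) (ι : GHom burnside S), Nontrivial S.R1 ∧ IsLoc (0 : burnside.R0) ι ∧
      ¬ Flat ι.toMod := by
  refine ⟨fun R b hb => ⟨loc R, locι R, isLoc b hb, flat_iff R⟩, loc burnside, locι burnside,
    ?_, isLoc (R := burnside) 0 ?_, ?_⟩
  · apply Ideal.Quotient.nontrivial_iff.mpr
    rw [Ideal.ne_top_iff_one]
    rintro ⟨x, hx⟩
    have h := congrArg (fun z : QuadraticAlgebra ℤ 0 2 => z.re) hx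
    change (0 : ℤ) = 1 at h
    omega
  · rw [zero_mul]; exact IsNilpotent.zero
  · rw [flat_iff]
    rintro ⟨a, ha⟩
    have key : ∀ x : ℤ, x + x ≠ 1 := by intro x; omega
    exact key a ha

end Pool.Agent.Results.MP_196a0c_al.NotFlat
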